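import Pool.Agent.Q4.SPC.Stm

/-!
# Project SPC (helper4), job SC2: reduction of the size of congruence symplectic matrices
-/

set_option autoImplicit false

open Matrix Q4.SPC

namespace Pool.Agent.Q68.SPC

section

variable {R : Type} [CommRing R] {n : ℕ}

lemma cg_iff (a : R) (g : Sp n R) :
    Cg a g ↔ spMap n (Ideal.Quotient.mk (Ideal.span {a})) g = 1 := by
  have h1 : ∀ i j, a ∣ g.1 i j - (1 : Matrix (Fin n ⊕ Fin n) (Fin n ⊕ Fin n) R) i j ↔
      (spMap n (Ideal.Quotient.mk (Ideal.span {a})) g).1 i j =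
        (1 : Matrix (Fin n ⊕ Fin n) (Fin n ⊕ Fin n) (R ⧸ Ideal.span {a})) i j := by
    intro i j
    have h2 : (1 : Matrix (Fin n ⊕ Fin n) (Fin n ⊕ Fin n) (R ⧸ Ideal.span {a})) i j =
        Ideal.Quotient.mk (Ideal.span {a})
          ((1 : Matrix (Fin n ⊕ Fin n) (Fin n ⊕ Fin n) R) i j) := by
      rw [Matrix.one_apply, Matrix.one_apply]
      split_ifs
      · rw [map_one]
      · rw [map_zero]
    rw [h2, ← Ideal.mem_span_singleton, ← Ideal.Quotient.eq]
    rfl
  constructor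
  · intro h
    exact Subtype.ext (Matrix.ext fun i j => (h1 i j).1 (h i j))
  · intro h i j
    rw [h1, h]
    rfl

lemma cg_el {a : R} {x : Sp n R} (h : IsEl a x) : Cg a x := by
  rcases h with ⟨S, -, h⟩ | ⟨S, -, h⟩ | ⟨i, j, -, b, h⟩
  · intro p q
    rw [h, ← fromBlocks_one]
    rcases p with p | p <;> rcases q with q | q
    · rw [fromBlocks_apply₁₁, fromBlocks_apply₁₁, sub_self]
      exact dvd_zero _
    · rw [fromBlocks_apply₁₂, fromBlocks_apply₁₂, Matrix.zero_apply, sub_zero]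
      exact Dvd.intro _ rfl
    · rw [fromBlocks_apply₂₁, fromBlocks_apply₂₁, sub_self]
      exact dvd_zero _
    · rw [fromBlocks_apply₂₂, fromBlocks_apply₂₂, sub_self]
      exact dvd_zero _
  · intro p q
    rw [h, ← fromBlocks_one]
    rcases p with p | p <;> rcases q with q | q
    · rw [fromBlocks_apply₁₁, fromBlocks_apply₁₁, sub_self]
      exact dvd_zero _
    · rw [fromBlocks_apply₁₂, fromBlocks_apply₁₂, sub_self]
      exact dvd_zero _
    · rw [fromBlocks_apply₂₁, fromBlocks_apply₂₁, Matrix.zero_apply, sub_zero]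
      exact Dvd.intro _ rfl
    · rw [fromBlocks_apply₂₂, fromBlocks_apply₂₂, sub_self]
      exact dvd_zero _
  · have key : ∀ (i j : Fin n) (c : R), a ∣ c → ∀ p q,
        a ∣ transvection i j c p q - (1 : Matrix (Fin n) (Fin n) R) p q := by
      intro i j c hc p q
      rw [transvection, Matrix.add_apply, add_sub_cancel_left, Matrix.single_apply]
      split_ifs
      · exact hc
      · exact dvd_zero _
    intro p q
    rw [h, ← fromBlocks_one]
    rcases p with p | p <;> rcases q with q | q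
    · rw [fromBlocks_apply₁₁, fromBlocks_apply₁₁]
      exact key _ _ _ (Dvd.intro _ rfl) _ _
    · rw [fromBlocks_apply₁₂, fromBlocks_apply₁₂, sub_self]
      exact dvd_zero _
    · rw [fromBlocks_apply₂₁, fromBlocks_apply₂₁, sub_self]
      exact dvd_zero _
    · rw [fromBlocks_apply₂₂, fromBlocks_apply₂₂]
      exact key _ _ _ ((Dvd.intro _ rfl : a ∣ a * b).neg_right) _ _

lemma cg_of_es {a : R} {x : Sp n R} (h : x ∈ ES n R a) : Cg a x := by
  rw [cg_iff]
  have h1 : ES n R a ≤ (spMap n (Ideal.Quotient.mk (Ideal.span {a}))).ker := by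
    rw [ES, Subgroup.closure_le]
    rintro _ ⟨p, y, hy, rfl⟩
    have h2 : spMap n (Ideal.Quotient.mk (Ideal.span {a})) y = 1 := (cg_iff a y).1 (cg_el hy)
    show spMap n _ (p * y * p⁻¹) = 1
    rw [map_mul, map_mul, h2, mul_one, ← map_mul, mul_inv_cancel, map_one]
  exact h1 h

lemma cg_mul {a : R} {g h : Sp n R} (hg : Cg a g) (hh : Cg a h) : Cg a (g * h) := by
  rw [cg_iff] at hg hh ⊢
  rw [map_mul, hg, hh, mul_one]

lemma col (M : Sp n R) (i j : Fin n ⊕ Fin n) :
    (M.1 *ᵥ Pi.single j 1) i = M.1 i j := by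
  rw [Matrix.mulVec_single_one]
  rfl

lemma inv_ll (M : Sp n R) (i j : Fin n) :
    (M⁻¹).1 (Sum.inl i) (Sum.inl j) = M.1 (Sum.inr j) (Sum.inr i) := by
  have h : M.1 = fromBlocks M.1.toBlocks₁₁ M.1.toBlocks₁₂ M.1.toBlocks₂₁ M.1.toBlocks₂₂ :=
    (fromBlocks_toBlocks M.1).symm
  rw [SymplecticGroup.coe_inv, h, J, fromBlocks_transpose, fromBlocks_neg, fromBlocks_multiply,
    fromBlocks_multiply]
  simp [toBlocks₂₂]

/-- the coordinate `y_0` of `M f_0` if `M e_0 = e_0` -/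
lemma pair (M : Sp n R) (i0 : Fin n)
    (h : M.1 *ᵥ Pi.single (Sum.inl i0) 1 = Pi.single (Sum.inl i0) 1) :
    M.1 (Sum.inr i0) (Sum.inr i0) = 1 := by
  rw [← inv_ll, ← col]
  have h1 : (M⁻¹).1 *ᵥ (M.1 *ᵥ Pi.single (Sum.inl i0) 1) =
      (Pi.single (Sum.inl i0) 1 : Fin n ⊕ Fin n → R) := by
    rw [Matrix.mulVec_mulVec]
    have h2 : (M⁻¹).1 * M.1 = 1 := congrArg Subtype.val (inv_mul_cancel M)
    rw [h2, Matrix.one_mulVec]
  rw [h] at h1
  rw [h1, Pi.single_eq_same]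

end

theorem sc2 : SC2 := by
  intro hSCR hSC1 R _ _ _ n hn i0 hi0 a ha hu g hg
  classical
  obtain ⟨x₁, hx₁, h1⟩ := hSC1 hSCR R n hn i0 hi0 a ha hu (g.1 *ᵥ Pi.single (Sum.inl i0) 1)
    (fun i => (g⁻¹).1 (Sum.inl i0) i) (by
      have h2 : ((g⁻¹).1 * g.1) (Sum.inl i0) (Sum.inl i0) = 1 := by
        have h3 : (g⁻¹).1 * g.1 = 1 := congrArg Subtype.val (inv_mul_cancel g)
        rw [h3, Matrix.one_apply_eq]
      rw [Matrix.mul_apply] at h2
      refine Eq.trans ?_ h2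
      exact Finset.sum_congr rfl fun i _ => congrArg _ (col g i _)) (by
      intro i
      have h2 := hg i (Sum.inl i0)
      rw [col]
      rwa [Matrix.one_apply, ← Pi.single_apply (Sum.inl i0) (1 : R) i] at h2)
  obtain ⟨M₁, hM₁⟩ : ∃ M₁ : Sp n R, M₁ = x₁ * g := ⟨_, rfl⟩
  have hM : M₁.1 *ᵥ Pi.single (Sum.inl i0) 1 = Pi.single (Sum.inl i0) 1 := by
    rw [Matrix.mulVec_mulVec] at h1
    rw [hM₁]
    exact h1
  have hcg : Cg a M₁ := by
    rw [hM₁]
    exact cg_mul (cg_of_es hx₁) hg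
  have hA : ∀ s : Finset (Fin n), i0 ∉ s → ∃ z ∈ ES n R a,
      (z * M₁).1 *ᵥ Pi.single (Sum.inl i0) 1 = Pi.single (Sum.inl i0) 1 ∧
      ∀ i ∈ s, (z * M₁).1 (Sum.inr i) (Sum.inr i0) = 0 := by
    intro s
    induction s using Finset.induction_on with
    | empty =>
      intro _
      refine ⟨1, one_mem _, ?_, fun i hi => absurd hi (Finset.notMem_empty i)⟩
      rw [one_mul]
      exact hM
    | insert j s hj ih =>
      intro h
      obtain ⟨z, hz, hz1, hz2⟩ := ih fun h' => h (Finset.mem_insert_of_mem h')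
      have hj0 : i0 ≠ j := fun h' => h (h' ▸ Finset.mem_insert_self j s)
      obtain ⟨N, hN⟩ : ∃ N : Sp n R, N = z * M₁ := ⟨_, rfl⟩
      rw [← hN] at hz1 hz2
      have hN1 := pair N i0 hz1
      have hcN : Cg a N := by
        rw [hN]
        exact cg_mul (cg_of_es hz) hcg
      obtain ⟨b, hb⟩ : ∃ b, b = N.1 (Sum.inr j) (Sum.inr i0) := ⟨_, rfl⟩
      have hab : a ∣ b := by
        have h2 := hcN (Sum.inr j) (Sum.inr i0)
        rw [Matrix.one_apply_ne (fun h' => hj0 (Sum.inr_injective h').symm), sub_zero] at h2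
        rw [hb]
        exact h2
      refine ⟨lvt i0 j hj0 b * z, mul_mem (isEl_lvt i0 j hj0 b hab).mem_ES hz, ?_, ?_⟩
      · rw [mul_assoc, ← hN]
        have h2 : (lvt i0 j hj0 b * N).1 *ᵥ Pi.single (Sum.inl i0) (1 : R) =
            (lvt i0 j hj0 b).1 *ᵥ (N.1 *ᵥ Pi.single (Sum.inl i0) 1) := by
          rw [Matrix.mulVec_mulVec]
          rfl
        rw [h2, hz1, ← Sum.elim_single_zero, lvt_mulVec]
        rw [Pi.single_eq_of_ne hj0.symm]
        simp
      · intro i hi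
        rw [mul_assoc, ← hN, ← col]
        have h2 : (lvt i0 j hj0 b * N).1 *ᵥ Pi.single (Sum.inr i0) (1 : R) =
            (lvt i0 j hj0 b).1 *ᵥ (N.1 *ᵥ Pi.single (Sum.inr i0) 1) := by
          rw [Matrix.mulVec_mulVec]
          rfl
        have h3 : N.1 *ᵥ Pi.single (Sum.inr i0) 1 =
            Sum.elim (fun i => N.1 (Sum.inl i) (Sum.inr i0))
              (fun i => N.1 (Sum.inr i) (Sum.inr i0)) := by
          funext k
          rw [col]
          rcases k with k | k <;> rfl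
        rw [h2, h3, lvt_mulVec, Sum.elim_inr, Pi.add_apply, hN1]
        rcases Finset.mem_insert.1 hi with rfl | hi'
        · rw [Pi.single_eq_same, ← hb, mul_one, add_neg_cancel]
        · have hne : i ≠ j := fun h' => hj (h' ▸ hi')
          rw [Pi.single_eq_of_ne hne, add_zero, hz2 i hi']
  obtain ⟨z, hz, hz1, hz2⟩ := hA (Finset.univ.erase i0) (Finset.notMem_erase i0 _)
  obtain ⟨N, hN⟩ : ∃ N : Sp n R, N = z * M₁ := ⟨_, rfl⟩
  rw [← hN] at hz1 hz2
  have hN1 := pair N i0 hz1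
  have hcN : Cg a N := by
    rw [hN]
    exact cg_mul (cg_of_es hz) hcg
  obtain ⟨x, hx⟩ : ∃ x : Fin n → R, ∀ i, x i = N.1 (Sum.inl i) (Sum.inr i0) := ⟨_, fun _ => rfl⟩
  have hax : ∀ i, a ∣ x i := by
    intro i
    have h2 := hcN (Sum.inl i) (Sum.inr i0)
    rw [Matrix.one_apply_ne Sum.inl_ne_inr, sub_zero] at h2
    rw [hx]
    exact h2
  have hNf : N.1 *ᵥ Pi.single (Sum.inr i0) 1 = Sum.elim x (Pi.single i0 1) := by
    funext k
    rw [col]
    rcases k with k | k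
    · rw [Sum.elim_inl, hx]
    · rw [Sum.elim_inr]
      by_cases hk : k = i0
      · rw [hk, Pi.single_eq_same, hN1]
      · rw [Pi.single_eq_of_ne hk, hz2 k (Finset.mem_erase.2 ⟨hk, Finset.mem_univ _⟩)]
  obtain ⟨δ, hδ⟩ : ∃ δ : Fin n → R, ∀ i, δ i = if i = i0 then 1 else 0 := ⟨_, fun _ => rfl⟩
  have hδ0 : δ i0 = 1 := by rw [hδ, if_pos rfl]
  obtain ⟨S, hS⟩ : ∃ S : Matrix (Fin n) (Fin n) R, ∀ i j, S i j =
      -(x i * δ j + δ i * x j) + δ i * δ j * x i0 :=
    ⟨Matrix.of fun i j => -(x i * δ j + δ i * x j) + δ i * δ j * x i0, fun _ _ => rfl⟩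
  have hSt : Sᵀ = S := by
    ext i j
    rw [Matrix.transpose_apply, hS, hS]
    ring
  have hSa : ∀ i j, a ∣ S i j := by
    intro i j
    rw [hS]
    refine dvd_add ((dvd_neg).2 (dvd_add ?_ ?_)) ?_
    · exact Dvd.dvd.mul_right (hax i) _
    · exact Dvd.dvd.mul_left (hax j) _
    · exact Dvd.dvd.mul_left (hax i0) _
  have hSe : ∀ i, (S *ᵥ Pi.single i0 1) i = - x i := by
    intro i
    rw [Matrix.mulVec_single_one]
    show S i i0 = _
    rw [hS, hδ0]
    by_cases hi : i = i0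
    · rw [hi, hδ0]
      ring
    · rw [hδ, if_neg hi]
      ring
  have hfix : FixLt 1 (up S hSt * N) := by
    intro i hi
    have hii : i = i0 := Fin.ext (by omega)
    subst hii
    constructor
    · have h2 : (up S hSt * N).1 *ᵥ Pi.single (Sum.inl i) (1 : R) =
          (up S hSt).1 *ᵥ (N.1 *ᵥ Pi.single (Sum.inl i) 1) := by
        rw [Matrix.mulVec_mulVec]
        rfl
      rw [h2, hz1, ← Sum.elim_single_zero, up_mulVec, Matrix.mulVec_zero, add_zero]
    · have h2 : (up S hSt * N).1 *ᵥ Pi.single (Sum.inr i) (1 : R) =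
          (up S hSt).1 *ᵥ (N.1 *ᵥ Pi.single (Sum.inr i) 1) := by
        rw [Matrix.mulVec_mulVec]
        rfl
      rw [h2, hNf, up_mulVec, ← Sum.elim_zero_single]
      congr 1
      funext k
      rw [Pi.add_apply, hSe, add_neg_cancel, Pi.zero_apply]
  refine ⟨up S hSt * z * x₁, mul_mem (mul_mem (isEl_up S hSt hSa).mem_ES hz) hx₁, ?_⟩
  have h2 : up S hSt * z * x₁ * g = up S hSt * N := by
    rw [hN, hM₁]
    group
  rw [h2]
  exact hfix

end Pool.Agent.Q68.SPC
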